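import Mathlib
import Pool.Agent.H412Z.LerfDefs
import Pool.Agent.H412Z.Lerf

set_option autoImplicit false

namespace Pool.Agent.Results.MP_7bd500_al.AmenableLerfUnstable

open Pool.Agent.H412Z.Lerf

/-- A countable amenable LERF group that is not permutation stable (for any presentation). -/
theorem result : ∃ (G : Type) (_ : Group G), Countable G ∧ Amenable G ∧ LERF G ∧
    ∀ (S : Type) (π : FreeGroup S →* G), Function.Surjective π → ¬ StablePresentation π :=
  ⟨Pool.Agent.H412Z.PermStab.Γ, inferInstance, inferInstance, amenable_Γ, lerf_Γ, not_stable_pres⟩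

end Pool.Agent.Results.MP_7bd500_al.AmenableLerfUnstable
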